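import Pool.Agent.H98.KS.Defs

/-!
# MP_ff41bc_an, targets 1: Weyl sums, Hardy-Littlewood, range A, range B
paper proof: team-store `H98_KS_proof.md` (sections 1-4)
helper98
-/

open scoped BigOperators

noncomputable section

namespace Pool.Agent.H98.KS

/-! ## Weyl -/

/-- recurrence lemma -/
def T_RL : Prop := ∀ (L β ρ ε δ : ℝ) (S : Finset ℤ), 1 ≤ L → 0 ≤ ε → 0 < δ → δ ≤ 1 →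
  (∀ h ∈ S, |(h : ℝ)| ≤ L) → δ * L ≤ S.card → (∀ h ∈ S, dn (β * h + ρ) ≤ ε) → ε ≤ δ / 64 →
  64 / δ ^ 2 ≤ L →
  ∃ q : ℕ, 1 ≤ q ∧ (q : ℝ) ≤ 4 / δ ∧ dn (q * β) ≤ 32 * ε / (δ ^ 2 * L)

/-- sharper recurrence lemma for small `ε L` -/
def T_RLp : Prop := ∀ (L β ρ ε δ : ℝ) (S : Finset ℤ), 1 ≤ L → 0 ≤ ε → 0 < δ → δ ≤ 1 →
  (∀ h ∈ S, |(h : ℝ)| ≤ L) → δ * L ≤ S.card → (∀ h ∈ S, dn (β * h + ρ) ≤ ε) → ε ≤ δ / 64 →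
  2 ≤ δ * L → ε * L ≤ 1 / 32 →
  ∃ q : ℕ, 1 ≤ q ∧ (q : ℝ) ≤ 4 / δ ∧ dn (q * β) ≤ 4 * ε / (δ * L)

/-- geometric sums -/
def T_W1 : Prop := ∃ A : ℕ, Weyl 1 A

/-- one Weyl differencing step -/
def T_WS : Prop := ∀ k A : ℕ, 1 ≤ k → Weyl k A → ∃ A' : ℕ, Weyl (k + 1) A'

/-- Weyl's inequality (qualitative) -/
def T_WK : Prop := ∀ k : ℕ, 1 ≤ k → ∃ A : ℕ, Weyl k A

/-- the second coefficient -/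
def T_W2 : Prop := ∀ k A A' : ℕ, 2 ≤ k → Weyl k A → Weyl (k - 1) A' → ∃ B : ℕ, Weyl2 k B

/-! ## Hardy-Littlewood -/

/-- weak type (1,1) -/
def T_HL : Prop := ∀ (d : ℕ) (S X : Finset (Fin d → ℤ)) (g : (Fin d → ℤ) → ℝ) (c : ℝ), 0 < c →
  (∀ x, 0 ≤ g x) →
  (∀ x ∈ X, ∃ R : ℕ, c * (2 * (R : ℝ) + 1) ^ d < ∑ y ∈ S.filter (fun y => ∀ i, |y i - x i| ≤ R), g y) →
  (X.card : ℝ) ≤ 2 ^ d / c * ∑ y ∈ S, g y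

/-- `l^2` bound for the (linearised) maximal averages along `q Z^d`, uniformly in `q` -/
def T_HLQ : Prop := ∀ d : ℕ, ∃ C : ℝ, 0 < C ∧ ∀ (q : ℕ) (g : (Fin d → ℤ) → ℝ) (S X : Finset (Fin d → ℤ))
  (J : (Fin d → ℤ) → ℕ), 1 ≤ q → (∀ x, 0 ≤ g x) → (∀ x, x ∉ S → g x = 0) →
  ∑ x ∈ X, (avq q (J x) g x) ^ 2 ≤ C * ∑ x ∈ S, (g x) ^ 2

/-! ## localisation and range A -/

/-- localisation to cells of side `L` -/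
def T_LOC : Prop := ∀ (d L : ℕ) (F X : Finset (Fin d → ℤ)) (B : ℝ), 1 ≤ L → 0 ≤ B →
  (∀ z : Fin d → ℤ,
    ((X.filter (fun x => ∀ i, (L : ℤ) * z i ≤ x i ∧ x i < L * z i + L)).card : ℝ) ≤
      B * (F.filter (fun y => ∀ i, (L : ℤ) * z i - 2 * L ≤ y i ∧ y i ≤ L * z i + 3 * L)).card) →
  (X.card : ℝ) ≤ 6 ^ d * B * F.card

/-- equidistant centres of two points -/
def T_EQ2 : Prop := ∀ (k d L : ℕ) (y y' : Fin d → ℤ), 2 ≤ k → 1 ≤ d → y ≠ y' →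
  ((cell d L).filter (fun x => pw k (x - y) = pw k (x - y'))).card ≤ L ^ (d - 1)

/-- second moment -/
def T_LA : Prop := ∀ (k d L : ℕ) (F X : Finset (Fin d → ℤ)) (T : ℝ), 2 ≤ k → 1 ≤ d → X ⊆ cell d L →
  2 ≤ T → (∀ x ∈ X, ∃ l, T ≤ cnt k F x l) →
  T ^ 2 * X.card ≤ 2 * (F.card : ℝ) ^ 2 * (L : ℝ) ^ (d - 1)

/-! ## range B -/

/-- the number of equidistant centres is at most an integral -/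
def T_OR : Prop := ∀ (k d L n : ℕ) (y : Fin (n + 1) → Fin d → ℤ),
  (((cell d L).filter (fun x => ∀ j, pw k (x - y j) = pw k (x - y 0))).card : ℝ)
    ≤ ∫ τ in Set.Icc (0 : Fin n → ℝ) 1, ∏ i, ‖Sx k L n τ (fun j => y j i)‖

/-- a large coordinate sum forces a rational relation -/
def T_SG : Prop := ∀ (k A : ℕ), 2 ≤ k → Weyl2 k A →
  ∀ (L n : ℕ) (δ : ℝ) (τ : Fin n → ℝ) (u : Fin (n + 1) → ℤ), 1 ≤ L → 0 < δ → δ ≤ 1 →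
  (2 : ℝ) ^ (n + 1) * (δ * L) ≤ ‖Sx k L n τ u‖ →
  ∃ s : Fin (n + 1) → ℤ, (∀ j, s j = 1 ∨ s j = -1) ∧ ∃ q : ℕ, 1 ≤ q ∧ (q : ℝ) ≤ A * (1 / δ) ^ A ∧
    dn (q * ((k : ℝ) * ∑ j : Fin n, (τ j * ((s j.succ : ℝ) * u j.succ) - τ j * ((s 0 : ℝ) * u 0))))
      ≤ A * (1 / δ) ^ A / (L : ℝ) ^ (k - 1)

/-- few `h` unless `τ` is near a rational with small denominator -/
def T_PT : Prop := ∀ (k : ℕ) (L Qc ε P τ β : ℝ) (S : Finset ℤ), 1 ≤ k → 1 ≤ L → 1 ≤ Qc → 0 ≤ ε →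
  0 < P → P ≤ 1 → (∀ h ∈ S, |(h : ℝ)| ≤ 3 * L) → P * L ≤ S.card →
  (∀ h ∈ S, ∃ q : ℕ, 1 ≤ q ∧ (q : ℝ) ≤ Qc ∧ dn (q * ((k : ℝ) * (τ * h + β))) ≤ ε) →
  192 * Qc * ε ≤ P → 2 * Qc ≤ P * L → 96 * (ε * L) ≤ 1 →
  ∃ Q : ℕ, 1 ≤ Q ∧ (Q : ℝ) ≤ 12 * k * Qc ^ 2 / P ∧ dn (Q * τ) ≤ 4 * Qc * ε / (P * L)

/-- measure of `T1` -/
def T_MS : Prop := ∀ (Qm : ℕ) (η : ℝ), 0 ≤ η → MeasurableSet (T1 Qm η) ∧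
  MeasureTheory.volume (T1 Qm η) ≤ ENNReal.ofReal (4 * Qm * η)

/-- counting points with most coordinates in small sets -/
def T_CT : Prop := ∀ (d t : ℕ) (B : Finset ℤ) (Z : Fin d → Finset ℤ) (w : ℝ), t ≤ d → 1 ≤ w →
  (∀ i, ((Z i).card : ℝ) ≤ w) →
  (((Fintype.piFinset (fun _ : Fin d => B)).filter
    (fun y => d < t + (Finset.univ.filter (fun i => y i ∈ Z i)).card)).card : ℝ)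
    ≤ 2 ^ d * (B.card : ℝ) ^ t * w ^ (d - t)

open Classical in
/-- abstract count of bad tuples -/
def T_AB : Prop := ∀ (d n : ℕ) (G : Finset (Fin d → ℤ))
  (Ev : (Fin n → ℝ) → (Fin (n + 1) → Fin d → ℤ) → Prop) (T : Set ℝ) (θ ω : ℝ),
  0 ≤ θ → 0 < ω → MeasurableSet T → (∀ y, MeasurableSet {τ | Ev τ y}) →
  (∀ τ : Fin n → ℝ, (∀ i, 0 ≤ τ i ∧ τ i ≤ 1) → ∀ j : Fin n, τ j ∉ T → ∀ y : Fin (n + 1) → Fin d → ℤ,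
    ((G.filter (fun g => Ev τ (Function.update y j.succ g))).card : ℝ) ≤ θ * G.card) →
  (((Fintype.piFinset (fun _ : Fin (n + 1) => G)).filter (fun y => ENNReal.ofReal ω <
    MeasureTheory.volume {τ : Fin n → ℝ | (∀ i, 0 ≤ τ i ∧ τ i ≤ 1) ∧ Ev τ y ∧ ∃ j, τ j ∉ T})).card : ℝ)
    ≤ θ / ω * (G.card : ℝ) ^ (n + 1)

/-- the numerical conditions of range B -/
def CondB (k n A t d L : ℕ) (N H T : ℝ) : Prop :=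
  A * t ≤ d ∧ 1 ≤ N ∧ 1 ≤ H ∧ 0 < T ∧
  192 * (A : ℝ) ^ 2 * H ^ 3 * N ≤ (L : ℝ) ^ (k - 1) ∧
  2 * (A : ℝ) * H ^ 2 * N ≤ L ∧
  96 * (A : ℝ) * H ≤ (L : ℝ) ^ (k - 2) ∧
  2 ^ d * (5 * (L : ℝ) + 1) ^ (A * t) * (2 ^ (n + 1) * ((L : ℝ) / (N * H))) ^ (d - A * t)
    ≤ T / (2 * (L : ℝ) ^ (k * (n + 1))) ∧
  ((2 : ℝ) ^ (n + 1)) ^ (A * t) ≤ H ^ t / (L : ℝ) ^ (k * (n + 1))

/-- the m-th moment estimate, `m = n + 1` -/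
def T_LB : Prop := ∀ (k n A t d L : ℕ) (N H T : ℝ), 3 ≤ k → 1 ≤ n → Weyl2 k A → 1 ≤ t → 1 ≤ L →
  CondB k n A t d L N H T →
  ∀ F X : Finset (Fin d → ℤ), F ⊆ bx d (-(2 * (L : ℤ))) (3 * L) → X ⊆ cell d L →
  (∀ x ∈ X, ∃ l, T ≤ cnt k F x l) →
  T ^ (n + 1) * X.card ≤ 2 * (F.card : ℝ) ^ (n + 1) * (L : ℝ) ^ d *
    (2 / (L : ℝ) ^ (k * (n + 1)) + (192 * k * (A : ℝ) ^ 4 * N ^ 2 * H ^ 6 / (L : ℝ) ^ k) ^ n)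

/-- the parameters of range B exist -/
def T_NB : Prop := ∀ k A M : ℕ, 3 ≤ k → 1 ≤ A → 1 ≤ M → ∃ n t D : ℕ, 1 ≤ n ∧ 1 ≤ t ∧ ∀ d : ℕ, D ≤ d →
  k < d ∧ ∀ c0 C3 : ℝ, 0 < c0 → 0 < C3 → ∃ N0 : ℝ, 1 ≤ N0 ∧ ∀ (N : ℝ) (L : ℕ), N0 ≤ N →
  N ^ (1 + 1 / (2 * (k : ℝ))) ≤ L → (L : ℝ) ≤ N ^ M →
  ∃ H : ℝ, CondB k n A t d L N H (c0 * (L / N) ^ (d - k)) ∧
    ∀ x f : ℝ, 0 ≤ x → 0 ≤ f → f ≤ C3 * (L / N) ^ d →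
      (c0 * (L / N) ^ (d - k)) ^ (n + 1) * x ≤ 2 * f ^ (n + 1) * (L : ℝ) ^ d *
        (2 / (L : ℝ) ^ (k * (n + 1)) + (192 * k * (A : ℝ) ^ 4 * N ^ 2 * H ^ 6 / (L : ℝ) ^ k) ^ n) →
      x ≤ N ^ ((d : ℝ) - 1 / 2) * f

/-- `x` is sparse for `F` -/
def Sparse {d : ℕ} (N c2 : ℝ) (F : Finset (Fin d → ℤ)) (x : Fin d → ℤ) : Prop :=
  ∀ R : ℕ, ((F.filter (fun y => ∀ i, |y i - x i| ≤ R)).card : ℝ) ≤ c2 / N ^ d * (2 * (R : ℝ) + 1) ^ d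

/-- `x` is rich at scale `L` -/
def Rich (k : ℕ) {d : ℕ} (N c0 : ℝ) (F : Finset (Fin d → ℤ)) (L : ℕ) (x : Fin d → ℤ) : Prop :=
  ∃ l : ℕ, L ^ k ≤ l ∧ l < (2 * L) ^ k ∧ c0 * ((L : ℝ) / N) ^ (d - k) ≤ cnt k F x l

/-- one scale in range A -/
def T_RA : Prop := ∀ k d : ℕ, 3 ≤ k → k < d → ∀ c0 : ℝ, 0 < c0 → ∃ C1 C : ℝ, 1 ≤ C1 ∧ 0 < C ∧
  ∀ (N : ℝ) (L : ℕ) (F X : Finset (Fin d → ℤ)), 1 ≤ N → C1 * N ≤ L →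
  (∀ x ∈ X, Sparse N 1 F x ∧ Rich k N c0 F L x) →
  (X.card : ℝ) ≤ C * N ^ d * ((L : ℝ) ^ (2 * k - 1) / N ^ (2 * k)) * F.card

/-- one scale in range B -/
def T_RB : Prop := ∀ k M : ℕ, 3 ≤ k → 1 ≤ M → ∃ D : ℕ, ∀ d : ℕ, D ≤ d → k < d ∧ ∀ c0 : ℝ, 0 < c0 →
  ∃ N0 : ℝ, 1 ≤ N0 ∧ ∀ (N : ℝ) (L : ℕ) (F X : Finset (Fin d → ℤ)), N0 ≤ N →
  N ^ (1 + 1 / (2 * (k : ℝ))) ≤ L → (L : ℝ) ≤ N ^ M →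
  (∀ x ∈ X, Sparse N 1 F x ∧ Rich k N c0 F L x) →
  (X.card : ℝ) ≤ 6 ^ d * N ^ ((d : ℝ) - 1 / 2) * F.card

/-- the trivial bound for one scale -/
def T_RT : Prop := ∀ (k d L : ℕ) (N c0 : ℝ) (F X : Finset (Fin d → ℤ)), 3 ≤ k → 1 ≤ L → 0 < c0 → 0 < N →
  (∀ x ∈ X, Rich k N c0 F L x) → (X.card : ℝ) ≤ (5 * (L : ℝ)) ^ d * F.card

/-- all scales up to `N^M` -/
def T_MID : Prop := ∀ k M : ℕ, 3 ≤ k → 1 ≤ M → ∃ D : ℕ, ∀ d : ℕ, D ≤ d → k < d ∧ ∀ c0 : ℝ, 0 < c0 →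
  ∃ C : ℝ, 0 < C ∧ ∀ (N : ℝ) (F X : Finset (Fin d → ℤ)), 1 ≤ N →
  (∀ x ∈ X, Sparse N 1 F x ∧ ∃ j : ℕ, (2 : ℝ) ^ j ≤ N ^ M ∧ Rich k N c0 F (2 ^ j) x) →
  (X.card : ℝ) ≤ C * N ^ d * F.card

end Pool.Agent.H98.KS
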