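import Pool.Agent.H98.KS.Targets1

/-!
# MP_ff41bc_an, targets 4: lower bound for the number of lattice points on the sphere
paper proof: team-store `H98_KS_proof.md` (section 7)
helper98
-/

open scoped BigOperators

noncomputable section

namespace Pool.Agent.H98.KS

/-- `NN` as an integral -/
def T_NI : Prop := ∀ k d X m : ℕ, 1 ≤ k → m ≤ X ^ k →
  ((NN k d m : ℕ) : ℂ) = ∫ θ in (0 : ℝ)..1, ee (-(θ * m)) * (Ss k X θ 0) ^ d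

/-- solutions modulo powers of small primes -/
def T_L1 : Prop := ∀ k d p v n l : ℕ, 1 ≤ k → p.Prime → p ^ v ∣ k → ¬ p ^ (v + 1) ∣ k →
  p ^ (2 * v + 1) ≤ d → p ^ (n * (d - 1)) ≤ p ^ ((2 * v + 1) * (d - 1)) * LS k d (p ^ n) l

/-- solutions modulo powers of large primes -/
def T_L2 : Prop := ∀ k d p n l : ℕ, 2 ≤ k → p.Prime → 4 * k ≤ d →
  (∀ (j : ℕ) (a : ℤ), ¬ (p : ℤ) ∣ a → ‖GG k a 0 (p ^ j)‖ ≤ ((p : ℝ) ^ j) ^ (-(1 / (k : ℝ)))) →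
  (1 - 1 / (p : ℝ) ^ 2) * (p : ℝ) ^ (n * (d - 1)) ≤ LS k d (p ^ n) l

/-- multiplicativity -/
def T_LM : Prop := ∀ k d q1 q2 l : ℕ, 1 ≤ q1 → 1 ≤ q2 → Nat.Coprime q1 q2 →
  LS k d (q1 * q2) l = LS k d q1 l * LS k d q2 l

/-- local densities are bounded below -/
def T_L3 : Prop := ∀ k : ℕ, 3 ≤ k → ∃ D : ℕ, ∀ d : ℕ, D ≤ d → ∃ ρ : ℝ, 0 < ρ ∧ ∀ W l : ℕ, 1 ≤ W →
  ρ * (W : ℝ) ^ (d - 1) ≤ LS k d W l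

/-- lower bound for the average -/
def T_L4 : Prop := ∀ k d : ℕ, 2 ≤ k → 2 ≤ d → ∃ c : ℝ, 0 < c ∧ ∀ (W : ℕ) (η : ℝ), 1 ≤ W → 0 < η → η ≤ 1 →
  ∃ l0 : ℕ, ∀ l : ℕ, l0 ≤ l →
    c * (l : ℝ) ^ (((d : ℝ) - k) / k) * (LS k d W l / (W : ℝ) ^ (d - 1)) ≤ AvN k d l W ⌊η * l / W⌋₊

/-- comparison of `NN` with its average -/
def T_L5 : Prop := ∀ k : ℕ, 3 ≤ k → ∃ D : ℕ, ∀ d : ℕ, D ≤ d → k < d ∧ ∃ C : ℝ, 0 < C ∧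
  ∀ (X l W J Q1 : ℕ) (η K : ℝ), 1 ≤ X → 1 ≤ W → 1 ≤ Q1 → (∀ q : ℕ, 1 ≤ q → q ≤ Q1 → q ∣ W) → 1 ≤ K →
  0 < η → η ≤ 1 → J * W ≤ l → l + J * W ≤ X ^ k → ((J * W : ℕ) : ℝ) ≤ η * (X : ℝ) ^ k →
  |(NN k d l : ℝ) - AvN k d l W J| ≤ C * (X : ℝ) ^ (d - k) * (η * K + 1 / K + 1 / Q1 + 1 / X)

/-- the lower bound -/
def T_NL : Prop := ∀ k : ℕ, 3 ≤ k → ∃ D : ℕ, ∀ d : ℕ, D ≤ d → k < d ∧ ∃ c0 : ℝ, 0 < c0 ∧ ∀ l : ℕ, 1 ≤ l →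
  NN k d l ≠ 0 → c0 * (l : ℝ) ^ (((d : ℝ) - k) / k) ≤ NN k d l

end Pool.Agent.H98.KS
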