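import Mathlib

/-!
# MP_ff41bc_an: statement
Endpoint bound for the k-spherical maximal operator on `Z^d`, all `k >= 3`, all large `d`.
helper98
-/

open scoped BigOperators ENNReal NNReal

noncomputable section

namespace Pool.Agent.H98.KS

/-- the sphere `S_{k,d}(r)` -/
def Sph (k d : ℕ) (r : ℝ) : Set (Fin d → ℤ) := {m | ∑ i, |(m i : ℝ)| ^ k = r ^ k}

/-- the radii with nonempty spheres -/
def Rad (k d : ℕ) : Set ℝ := {r | 0 < r ∧ (Sph k d r).Nonempty}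

/-- the average over the sphere of radius `r` with centre `x` -/
def sphAvg (k d : ℕ) (r : ℝ) (f : (Fin d → ℤ) → ℂ) (x : Fin d → ℤ) : ℂ :=
  (1 / ((Sph k d r).ncard : ℂ)) * ∑ᶠ y ∈ Sph k d r, f (x - y)

/-- the maximal operator `A_*` -/
def maxOp (k d : ℕ) (f : (Fin d → ℤ) → ℂ) (x : Fin d → ℤ) : ℝ≥0∞ :=
  ⨆ r ∈ Rad k d, ‖sphAvg k d r f x‖ₑ

/-- the distribution function for the counting measure -/
def distr {α : Type} (g : α → ℝ≥0∞) (t : ℝ≥0∞) : ℝ≥0∞ := ((Set.encard {x | t < g x} : ℕ∞) : ℝ≥0∞)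

/-- the quasi-norm of `l^{p,oo}` -/
def weakNorm {α : Type} (p : ℝ) (g : α → ℝ≥0∞) : ℝ≥0∞ :=
  ⨆ (t : ℝ≥0) (_ : 0 < t), (t : ℝ≥0∞) * (distr g t) ^ (1 / p)

/-- the norm of `l^{p,1}` -/
def lorentzNorm {α : Type} (p : ℝ) (f : α → ℂ) : ℝ≥0∞ :=
  ENNReal.ofReal p * ∫⁻ t in Set.Ioi (0 : ℝ), (distr (fun x => ‖f x‖ₑ) (ENNReal.ofReal t)) ^ (1 / p)

end Pool.Agent.H98.KS
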