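import Pool.Agent.H98.KS.Targets1
import Pool.Agent.H98.KS.Stmt

/-!
# MP_ff41bc_an, targets 5: from level sets of indicator functions to the theorem
paper proof: team-store `H98_KS_proof.md` (section 1)
helper98
-/

open scoped BigOperators ENNReal NNReal

noncomputable section

namespace Pool.Agent.H98.KS

/-- the norm of `l^q` -/
def lqNorm {α : Type} (q : ℝ) (g : α → ℝ≥0∞) : ℝ≥0∞ := (∑' x, g x ^ q) ^ (1 / q)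

/-- the level set estimate -/
def CoreKD (k d : ℕ) (C : ℝ) : Prop := 0 < C ∧ ∀ (F X : Finset (Fin d → ℤ)) (t : ℝ), 0 < t → t ≤ 1 →
  (∀ x ∈ X, ∃ l : ℕ, 1 ≤ l ∧ t * NN k d l < cnt k F x l) →
  (X.card : ℝ) ≤ C * t ^ (-((d : ℝ) / ((d : ℝ) - k))) * F.card

/-- the core -/
def T_CORE : Prop := ∀ k : ℕ, 3 ≤ k → ∃ D : ℕ, ∀ d : ℕ, D ≤ d → k < d ∧ ∃ C : ℝ, CoreKD k d C

/-- translation to `cnt` -/
def T_Z0 : Prop := ∀ (k d : ℕ) (F : Finset (Fin d → ℤ)) (x : Fin d → ℤ) (t : ℝ≥0), 1 ≤ k →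
  maxOp k d (Set.indicator (F : Set (Fin d → ℤ)) (fun _ => 1)) x ≤ 1 ∧
  ((t : ℝ≥0∞) < maxOp k d (Set.indicator (F : Set (Fin d → ℤ)) (fun _ => 1)) x →
    ∃ l : ℕ, 1 ≤ l ∧ (t : ℝ) * NN k d l < cnt k F x l)

/-- sums over finite sets -/
def T_ZA : Prop := ∀ (k d : ℕ) (C : ℝ), 3 ≤ k → k < d → CoreKD k d C → ∃ C' : ℝ≥0,
  ∀ E X : Finset (Fin d → ℤ),
    ∑ x ∈ X, maxOp k d (Set.indicator (E : Set (Fin d → ℤ)) (fun _ => 1)) x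
      ≤ C' * (X.card : ℝ≥0∞) ^ (1 - ((d : ℝ) - k) / d) * (E.card : ℝ≥0∞) ^ (((d : ℝ) - k) / d)

/-- sublinearity over dyadic levels -/
def T_ZB : Prop := ∀ (k d : ℕ) (f : (Fin d → ℤ) → ℂ) (E : ℤ → Finset (Fin d → ℤ)) (x : Fin d → ℤ), 1 ≤ k →
  (∀ y j, y ∈ E j ↔ (2 : ℝ) ^ j < ‖f y‖ ∧ ‖f y‖ ≤ (2 : ℝ) ^ (j + 1)) →
  maxOp k d f x ≤ ∑' j : ℤ, ENNReal.ofReal ((2 : ℝ) ^ (j + 1)) *
    maxOp k d (Set.indicator (E j : Set (Fin d → ℤ)) (fun _ => 1)) x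

/-- the endpoint bound -/
def T_Z1 : Prop := ∀ (k d : ℕ) (C : ℝ), 3 ≤ k → k < d → CoreKD k d C →
  ∃ C' : ℝ≥0, ∀ f : (Fin d → ℤ) → ℂ,
    weakNorm ((d : ℝ) / ((d : ℝ) - k)) (maxOp k d f) ≤ C' * lorentzNorm ((d : ℝ) / ((d : ℝ) - k)) f

/-- the strong type bound -/
def T_Z2 : Prop := ∀ (k d : ℕ) (C q : ℝ), 3 ≤ k → k < d → CoreKD k d C → (d : ℝ) / ((d : ℝ) - k) < q →
  ∃ C' : ℝ≥0, ∀ f : (Fin d → ℤ) → ℂ, lqNorm q (maxOp k d f) ≤ C' * lqNorm q (fun x => ‖f x‖ₑ)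

end Pool.Agent.H98.KS
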