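import Pool.Agent.H98.KS.Targets1

/-!
# MP_ff41bc_an, targets 3: the circle method, range C
paper proof: team-store `H98_KS_proof.md` (section 5)
helper98
-/

open scoped BigOperators

noncomputable section

namespace Pool.Agent.H98.KS

/-! ## one-dimensional sums and integrals -/

/-- splitting of `Ss` -/
def T_SH : Prop := ∀ (k X : ℕ) (θ ξ : ℝ), 1 ≤ k → Ss k X θ ξ = 1 + Hs k X θ ξ + Hs k X θ (-ξ)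

/-- van der Corput bound for the oscillatory integral -/
def T_I1 : Prop := ∀ k : ℕ, 3 ≤ k → ∃ C : ℝ, 0 < C ∧ ∀ κ u : ℝ, ‖II k κ u‖ ≤ C * (1 + |κ|) ^ (-(e0 k))

/-- integration by parts and Lipschitz bound -/
def T_I2 : Prop := ∀ (k : ℕ) (κ u : ℝ), 1 ≤ k →
  |u| * ‖II k κ u‖ ≤ 1 + |κ| ∧ ‖II k κ u - II k κ 0‖ ≤ 4 * |u| ∧ ‖II k κ u‖ ≤ 1

/-- sums over a residue class and integrals -/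
def T_PR : Prop := ∀ (f : ℝ → ℂ) (V : ℝ) (X q r : ℕ), 1 ≤ q → 0 ≤ V →
  (∀ x : ℝ, 0 ≤ x → x ≤ X → ‖f x‖ ≤ 1) →
  (∀ x y : ℝ, 0 ≤ x → x ≤ X → 0 ≤ y → y ≤ X → ‖f x - f y‖ ≤ V * |x - y|) →
  ‖∑ n ∈ (Finset.Icc 1 X).filter (fun n => n % q = r % q), f n - (1 / (q : ℂ)) * ∫ x in (0 : ℝ)..X, f x‖
    ≤ 3 + V * X

/-- the approximation (5.2) for small `X |β|` -/
def T_AS : Prop := ∀ k : ℕ, 3 ≤ k → ∃ C : ℝ, 0 < C ∧ ∀ (X q : ℕ) (a b : ℤ) (κ β : ℝ), 1 ≤ q → 1 ≤ X →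
  big X q κ → X * |β| ≤ (X : ℝ) ^ ((3 : ℝ) / 20) →
  ‖Hs k X (th k X a q κ) ((b : ℝ) / q + β) / X - GG k a (-b) q * II k κ (X * β)‖
    ≤ C * (X : ℝ) ^ (-((1 : ℝ) / 20))

/-- the sum is small for large `X |β|` -/
def T_BLK : Prop := ∀ k : ℕ, 3 ≤ k → ∃ C : ℝ, 0 < C ∧ ∀ (X q : ℕ) (a b : ℤ) (κ β : ℝ), 1 ≤ q → 1 ≤ X →
  big X q κ → (X : ℝ) ^ ((3 : ℝ) / 20) ≤ X * |β| → |β| ≤ 1 / (2 * q) →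
  ‖Hs k X (th k X a q κ) ((b : ℝ) / q + β)‖ ≤ C * (X : ℝ) ^ (1 - (1 : ℝ) / 20)

/-- the approximation (5.2) -/
def T_AP : Prop := ∀ k : ℕ, 3 ≤ k → ∃ C : ℝ, 0 < C ∧ ∀ (X q : ℕ) (a b : ℤ) (κ β : ℝ), 1 ≤ q → 1 ≤ X →
  big X q κ → |β| ≤ 1 / (2 * q) →
  ‖Hs k X (th k X a q κ) ((b : ℝ) / q + β) / X - GG k a (-b) q * II k κ (X * β)‖
    ≤ C * (X : ℝ) ^ (-((1 : ℝ) / 20))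

/-- minor arcs -/
def T_MIN : Prop := ∀ k A : ℕ, 3 ≤ k → Weyl k A → ∃ c5 C : ℝ, 0 < c5 ∧ c5 ≤ 1 ∧ 0 < C ∧ ∀ (X : ℕ) (θ ξ : ℝ),
  1 ≤ X → θ ∈ MinS k X → ‖Ss k X θ ξ‖ ≤ C * (X : ℝ) ^ (1 - c5)

/-- the size of one coordinate: `q^(-1/k) (1+|κ|)^(-e0)` -/
def bb0 (k q : ℕ) (κ : ℝ) : ℝ := (q : ℝ) ^ (-(1 / (k : ℝ))) * (1 + |κ|) ^ (-(e0 k))

/-- (S1), (S2), (S3) -/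
def T_SB : Prop := ∀ (k : ℕ) (Cg : ℝ), 3 ≤ k → GB k Cg → ∃ C : ℝ, 0 < C ∧
  ∀ (X q : ℕ) (a b : ℤ) (κ β : ℝ), 1 ≤ q → 1 ≤ X → IsCoprime a (q : ℤ) → big X q κ → |β| ≤ 1 / (2 * q) →
  ‖Ss k X (th k X a q κ) ((b : ℝ) / q + β)‖ / X ≤ C * bb0 k q κ ∧
  ‖Ss k X (th k X a q κ) ((b : ℝ) / q + β) / X - gb k a b q * II k κ 0‖
    ≤ C * ((q : ℝ) ^ (-(1 / (k : ℝ))) * (X * |β|) + (X : ℝ) ^ (-((1 : ℝ) / 20))) ∧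
  (β ≠ 0 → ‖Ss k X (th k X a q κ) ((b : ℝ) / q + β)‖ / X
    ≤ C * ((q : ℝ) ^ (-(1 / (k : ℝ))) * ((1 + |κ|) / (X * |β|)) + (X : ℝ) ^ (-((1 : ℝ) / 20))))

/-! ## Fourier analysis on `Z^d` -/

/-- Parseval -/
def T_PV : Prop := ∀ (d : ℕ) (S : Finset (Fin d → ℤ)) (f : (Fin d → ℤ) → ℂ),
  ∑ x ∈ S, ‖f x‖ ^ 2 = ∫ ξ in Set.Icc (0 : Fin d → ℝ) 1, ‖ft S f ξ‖ ^ 2

/-- square functions -/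
def T_PK : Prop := ∀ (d : ℕ) (I : Finset ℕ) (S : ℕ → Finset (Fin d → ℤ)) (K : ℕ → (Fin d → ℤ) → ℂ)
  (F X : Finset (Fin d → ℤ)) (f : (Fin d → ℤ) → ℂ) (B : ℝ),
  (∀ ξ, ∑ i ∈ I, ‖ft (S i) (K i) ξ‖ ^ 2 ≤ B) → (∀ x, x ∉ F → f x = 0) →
  ∑ i ∈ I, ∑ x ∈ X, ‖conv (S i) (K i) f x‖ ^ 2 ≤ B * ∑ x ∈ F, ‖f x‖ ^ 2

/-- product kernels -/
def T_SP : Prop := ∀ (d R : ℕ) (g : ℤ → ℂ) (ξ : Fin d → ℝ),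
  ft (bx d (-(R : ℤ)) R) (fun y => ∏ i, g (y i)) ξ
    = ∏ i, ∑ n ∈ Finset.Icc (-(R : ℤ)) R, g n * ee (-(n * ξ i))

/-- `KF` is a convolution -/
def T_KC : Prop := ∀ (k d X : ℕ) (F : Finset (Fin d → ℤ)) (θ : ℝ) (x : Fin d → ℤ),
  KF k F X θ x = conv (bx d (-(X : ℤ)) X) (fun y => ∏ i, ee (θ * (((y i).natAbs ^ k : ℕ) : ℝ)))
    (Set.indicator (F : Set (Fin d → ℤ)) (fun _ => 1)) x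

/-- Fejer interpolation -/
def T_FJ : Prop := ∀ (q : ℕ) (g : ℤ → ℂ) (γ : ℝ), 1 ≤ q → (∀ b, g (b + q) = g b) → (∀ b, ‖g b‖ ≤ γ) →
  ∃ c : ℤ → ℂ, (∀ n : ℤ, (q : ℤ) ≤ |n| → c n = 0) ∧ (∀ ξ, ‖vs q c ξ‖ ≤ γ) ∧
    ∀ (b : ℤ) (β : ℝ), ‖vs q c ((b : ℝ) / q + β) - g b‖ ≤ 8 * (q : ℝ) ^ 2 * γ * |β|

/-- averages along `q Z` -/
def T_AX : Prop := ∀ (q X : ℕ) (b : ℤ) (β : ℝ), 1 ≤ q → |β| ≤ 1 / (2 * q) →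
  ‖aX q (X / q) ((b : ℝ) / q + β)‖ ≤ 1 ∧ ‖aX q (X / q) ((b : ℝ) / q + β) - 1‖ ≤ 7 * (X * |β|) ∧
  X * |β| * ‖aX q (X / q) ((b : ℝ) / q + β)‖ ≤ 1

/-- the kernel `uk` -/
def T_UK : Prop := ∀ (q J R : ℕ) (z : ℂ) (c : ℤ → ℂ) (ξ : ℝ), 1 ≤ q → (∀ n : ℤ, (q : ℤ) ≤ |n| → c n = 0) →
  q * (J + 1) ≤ R →
  ∑ n ∈ Finset.Icc (-(R : ℤ)) R, uk q J z c n * ee (-(n * ξ)) = z * aX q J ξ * vs q c ξ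

/-- the main part of the maximal function -/
def T_UM : Prop := ∀ d : ℕ, ∃ C : ℝ, 0 < C ∧ ∀ (q : ℕ) (z : ℂ) (c : ℤ → ℂ) (γ : ℝ)
  (F S : Finset (Fin d → ℤ)) (J R : (Fin d → ℤ) → ℕ), 1 ≤ q → 0 ≤ γ →
  (∀ n : ℤ, (q : ℤ) ≤ |n| → c n = 0) → (∀ ξ, ‖vs q c ξ‖ ≤ γ) → (∀ x ∈ S, q * (J x + 1) ≤ R x) →
  ∑ x ∈ S, ‖conv (bx d (-(R x : ℤ)) (R x)) (fun y => ∏ i, uk q (J x) z c (y i))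
      (Set.indicator (F : Set (Fin d → ℤ)) (fun _ => 1)) x‖ ^ 2
    ≤ C * (‖z‖ * γ) ^ (2 * d) * F.card

/-! ## the main estimate -/

/-- the difference of the two products at one scale -/
def T_D1 : Prop := ∀ (k : ℕ) (Cg : ℝ), 3 ≤ k → GB k Cg → ∀ d : ℕ, 1 ≤ d → ∃ C : ℝ, 0 < C ∧
  ∀ (X q : ℕ) (a : ℤ) (κ : ℝ) (v : ℝ → ℂ) (ξ : Fin d → ℝ), 1 ≤ q → 1 ≤ X → IsCoprime a (q : ℤ) →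
  big X q κ → (∀ ξ, ‖v ξ‖ ≤ 2 * Cg * (q : ℝ) ^ (-(1 / (k : ℝ)))) →
  (∀ (b : ℤ) (β : ℝ), ‖v ((b : ℝ) / q + β) - gb k a b q‖
    ≤ 8 * (q : ℝ) ^ 2 * (2 * Cg * (q : ℝ) ^ (-(1 / (k : ℝ)))) * |β|) →
  ∀ B : ℝ, (∀ i, |ξ i - round (q * ξ i) / q| ≤ B) → (∃ i, |ξ i - round (q * ξ i) / q| = B) →
  (X * B ≤ 1 →
    ‖∏ i, (Ss k X (th k X a q κ) (ξ i) / X) - ∏ i, (II k κ 0 * aX q (X / q) (ξ i) * v (ξ i))‖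
      ≤ C * bb0 k q κ ^ (d - 1) *
        ((q : ℝ) ^ (-(1 / (k : ℝ))) * (X * B) + (X : ℝ) ^ (-((1 : ℝ) / 20)))) ∧
  (1 < X * B →
    ‖∏ i, (Ss k X (th k X a q κ) (ξ i) / X) - ∏ i, (II k κ 0 * aX q (X / q) (ξ i) * v (ξ i))‖
      ≤ C * bb0 k q κ ^ (d - 1) * (2 * (q : ℝ) ^ (-(1 / (k : ℝ)))) ∧
    ‖∏ i, (Ss k X (th k X a q κ) (ξ i) / X) - ∏ i, (II k κ 0 * aX q (X / q) (ξ i) * v (ξ i))‖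
      ≤ C * bb0 k q κ ^ (d - 1) *
        (2 * (q : ℝ) ^ (-(1 / (k : ℝ))) * ((1 + |κ|) / (X * B)) + (X : ℝ) ^ (-((1 : ℝ) / 20))))

/-- dyadic sum of squares -/
def T_D2 : Prop := ∃ C : ℝ, 0 < C ∧ ∀ (ρ B K : ℝ) (I : Finset ℕ) (f : ℕ → ℝ), 0 < ρ → 0 ≤ B → 1 ≤ K →
  (∀ j ∈ I, 0 ≤ f j ∧ ((2 : ℝ) ^ j) ^ (-((1 : ℝ) / 20)) ≤ ρ ∧
    ((2 : ℝ) ^ j * B ≤ 1 → f j ≤ ρ * ((2 : ℝ) ^ j * B) + ((2 : ℝ) ^ j) ^ (-((1 : ℝ) / 20))) ∧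
    (1 < (2 : ℝ) ^ j * B → f j ≤ 2 * ρ ∧
      f j ≤ 2 * ρ * (K / ((2 : ℝ) ^ j * B)) + ((2 : ℝ) ^ j) ^ (-((1 : ℝ) / 20)))) →
  ∑ j ∈ I, (f j) ^ 2 ≤ C * ρ ^ 2 * Real.log (2 + K)

/-- the multiplier estimate -/
def T_DM : Prop := ∀ (k : ℕ) (Cg : ℝ), 3 ≤ k → GB k Cg → ∀ d : ℕ, 1 ≤ d → ∃ C : ℝ, 0 < C ∧
  ∀ (q : ℕ) (a : ℤ) (κ : ℝ) (v : ℝ → ℂ) (I : Finset ℕ) (ξ : Fin d → ℝ), 1 ≤ q → IsCoprime a (q : ℤ) →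
  (∀ ξ, ‖v ξ‖ ≤ 2 * Cg * (q : ℝ) ^ (-(1 / (k : ℝ)))) →
  (∀ (b : ℤ) (β : ℝ), ‖v ((b : ℝ) / q + β) - gb k a b q‖
    ≤ 8 * (q : ℝ) ^ 2 * (2 * Cg * (q : ℝ) ^ (-(1 / (k : ℝ)))) * |β|) →
  (∀ j ∈ I, big (2 ^ j) q κ) →
  ∑ j ∈ I, ‖∏ i, (Ss k (2 ^ j) (th k (2 ^ j) a q κ) (ξ i) / ((2 : ℂ) ^ j))
      - ∏ i, (II k κ 0 * aX q (2 ^ j / q) (ξ i) * v (ξ i))‖ ^ 2
    ≤ (C * BB k d q κ) ^ 2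

/-- the main estimate (5.6) -/
def T_ME : Prop := ∀ (k : ℕ) (Cg : ℝ), 3 ≤ k → GB k Cg → ∀ d : ℕ, 1 ≤ d → ∃ C : ℝ, 0 < C ∧
  ∀ (q : ℕ) (a : ℤ) (κ : ℝ) (F S : Finset (Fin d → ℤ)) (j : (Fin d → ℤ) → ℕ), 1 ≤ q →
  IsCoprime a (q : ℤ) → (∀ x ∈ S, big (2 ^ j x) q κ) →
  ∑ x ∈ S, (‖KF k F (2 ^ j x) (th k (2 ^ j x) a q κ) x‖ / ((2 : ℝ) ^ j x) ^ d) ^ 2
    ≤ (C * BB k d q κ) ^ 2 * F.card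

/-! ## assembly of range C -/

/-- sum of the main estimates over the high arcs -/
def T_INT : Prop := ∀ k : ℕ, 3 ≤ k → ∃ D : ℕ, ∀ d : ℕ, D ≤ d →
  (∀ q : ℕ, 1 ≤ q → MeasureTheory.Integrable (fun κ => BB k d q κ)) ∧
  ∃ C : ℝ, 0 < C ∧ ∀ (Y : ℝ) (Qm : ℕ), 1 ≤ Y →
    ∑ q ∈ Finset.Icc 1 Qm, (q : ℝ) * ∫ κ in {κ : ℝ | ¬ low k Y q κ}, BB k d q κ
      ≤ C * Y ^ (2 - (d : ℝ) / k)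

/-- measure of the low arcs -/
def T_LW : Prop := ∀ k : ℕ, 3 ≤ k → ∃ C : ℝ, 0 < C ∧ ∀ Y : ℝ, 1 ≤ Y →
  ∑ q ∈ Finset.Icc 1 ⌊Y⌋₊, (q : ℝ) * kap k Y q ≤ C * Y ^ 2

/-- the arcs cover `[0,1]` -/
def T_ARC : Prop := ∀ (k X : ℕ) (f : ℝ → ℝ), 1 ≤ X → Continuous f → (∀ θ, 0 ≤ f θ) →
  ∫ θ in (0 : ℝ)..1, f θ ≤ (∫ θ in MinS k X, f θ) +
    (1 / (X : ℝ) ^ k) * ∑ q ∈ Finset.Icc 1 (Qx X), ∑ a ∈ res q,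
      ∫ κ in {κ : ℝ | |κ| ≤ (X : ℝ) ^ ((1 : ℝ) / 20)}, f (th k X a q κ)

/-- the circle identity -/
def T_CI : Prop := ∀ (k d X l : ℕ) (F : Finset (Fin d → ℤ)) (x : Fin d → ℤ), 1 ≤ k → l ≤ X ^ k →
  ((cnt k F x l : ℕ) : ℂ) = ∫ θ in (0 : ℝ)..1, ee (-(θ * l)) * KF k F X θ x

/-- the pointwise inequality at one scale -/
def T_CV : Prop := ∀ k d : ℕ, 3 ≤ k → k ≤ d → ∃ C : ℝ, 0 < C ∧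
  ∀ (N c2 : ℝ) (F : Finset (Fin d → ℤ)) (x : Fin d → ℤ) (X l : ℕ), 1 ≤ N → 0 ≤ c2 → 1 ≤ X → l ≤ X ^ k →
  Sparse N c2 F x →
  (cnt k F x l : ℝ) ≤ (∫ θ in MinS k X, ‖KF k F X θ x‖) +
    (1 / (X : ℝ) ^ k) * (∑ q ∈ Finset.Icc 1 (Qx X), ∑ a ∈ res q,
      ∫ κ in {κ : ℝ | |κ| ≤ (X : ℝ) ^ ((1 : ℝ) / 20) ∧ ¬ low k (N ^ ((k : ℝ) / 2)) q κ},
        ‖KF k F X (th k X a q κ) x‖) +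
    C * c2 * ((X : ℝ) / N) ^ (d - k)

/-- the minor part in `l^2` -/
def T_MP : Prop := ∀ k : ℕ, 3 ≤ k → ∃ c5 : ℝ, 0 < c5 ∧ c5 ≤ 1 ∧ ∀ d : ℕ, ∃ C : ℝ, 0 < C ∧
  ∀ (X : ℕ) (F S : Finset (Fin d → ℤ)), 1 ≤ X →
  ∑ x ∈ S, (∫ θ in MinS k X, ‖KF k F X θ x‖) ^ 2 ≤ C * (X : ℝ) ^ (2 * (1 - c5) * d) * F.card

/-- the high part in `l^2` -/
def T_HP : Prop := ∀ k : ℕ, 3 ≤ k → ∃ D : ℕ, ∀ d : ℕ, D ≤ d → ∃ C : ℝ, 0 < C ∧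
  ∀ (Y : ℝ) (F S : Finset (Fin d → ℤ)) (j : (Fin d → ℤ) → ℕ), 1 ≤ Y →
  ∑ x ∈ S, (∑ q ∈ Finset.Icc 1 (Qx (2 ^ j x)), ∑ a ∈ res q,
      ∫ κ in {κ : ℝ | |κ| ≤ (((2 ^ j x : ℕ) : ℝ)) ^ ((1 : ℝ) / 20) ∧ ¬ low k Y q κ},
        ‖KF k F (2 ^ j x) (th k (2 ^ j x) a q κ) x‖ / ((2 : ℝ) ^ j x) ^ d) ^ 2
    ≤ C * (Y ^ (2 - (d : ℝ) / k)) ^ 2 * F.card

/-- all large scales -/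
def T_CC : Prop := ∀ k : ℕ, 3 ≤ k → ∃ M D : ℕ, 1 ≤ M ∧ ∀ d : ℕ, D ≤ d → k < d ∧ ∀ c0 : ℝ, 0 < c0 →
  ∃ c2 C : ℝ, 0 < c2 ∧ c2 ≤ 1 ∧ 0 < C ∧ ∀ (N : ℝ) (F X : Finset (Fin d → ℤ)), 1 ≤ N →
  (∀ x ∈ X, Sparse N c2 F x ∧ ∃ j : ℕ, N ^ M ≤ (2 : ℝ) ^ j ∧ Rich k N c0 F (2 ^ j) x) →
  (X.card : ℝ) ≤ C * N ^ d * F.card

end Pool.Agent.H98.KS
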