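import Pool.Agent.H98.KS.Targets2
import Pool.Agent.H98.KS.Targets3
import Pool.Agent.H98.KS.Targets4
import Pool.Agent.H98.KS.Targets5
import Pool.Agent.H13.KS.AB
import Pool.Agent.H67.KS.AP
import Pool.Agent.H1.KS.ARC
import Pool.Agent.H54.KS.AS
import Pool.Agent.H36.KS.AX
import Pool.Agent.H31.KS.BLK
import Pool.Agent.H98.KS.CC
import Pool.Agent.H34.KS.CI
import Pool.Agent.H98.KS.CORE
import Pool.Agent.H81.KS.CT
import Pool.Agent.H55.KS.CU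
import Pool.Agent.H4.KS.CV
import Pool.Agent.H31.KS.D1
import Pool.Agent.H36.KS.D2
import Pool.Agent.H67.KS.DM
import Pool.Agent.H91.KS.EQ2
import Pool.Agent.H14.KS.FJ
import Pool.Agent.H74.KS.G0
import Pool.Agent.H74.KS.G1a
import Pool.Agent.H60.KS.G1b
import Pool.Agent.H67.KS.G1c
import Pool.Agent.H59.KS.G1z
import Pool.Agent.H54.KS.G2
import Pool.Agent.H90.KS.G3
import Pool.Agent.H1.KS.G4
import Pool.Agent.H54.KS.G5
import Pool.Agent.H35.KS.G6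
import Pool.Agent.H74.KS.G7
import Pool.Agent.H89.KS.GB
import Pool.Agent.H54.KS.GE
import Pool.Agent.H67.KS.GS
import Pool.Agent.H65.KS.HL
import Pool.Agent.H65.KS.HLQ
import Pool.Agent.H4.KS.HP
import Pool.Agent.H15.KS.I1
import Pool.Agent.H71.KS.I2
import Pool.Agent.H67.KS.INT
import Pool.Agent.H3.KS.KC
import Pool.Agent.H14.KS.L1
import Pool.Agent.H4.KS.L2
import Pool.Agent.H54.KS.L3
import Pool.Agent.H33.KS.L4
import Pool.Agent.H4.KS.L5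
import Pool.Agent.H17.KS.LA
import Pool.Agent.H97.KS.LB
import Pool.Agent.H81.KS.LM
import Pool.Agent.H67.KS.LOC
import Pool.Agent.H36.KS.LW
import Pool.Agent.H54.KS.M2
import Pool.Agent.H55.KS.M4
import Pool.Agent.H60.KS.M44
import Pool.Agent.H84.KS.ME
import Pool.Agent.H35.KS.MID
import Pool.Agent.H3.KS.MIN
import Pool.Agent.H81.KS.MP
import Pool.Agent.H48.KS.MS
import Pool.Agent.H91.KS.NB
import Pool.Agent.H33.KS.NI
import Pool.Agent.H98.KS.NL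
import Pool.Agent.H54.KS.OB
import Pool.Agent.H31.KS.OR
import Pool.Agent.H15.KS.PK
import Pool.Agent.H71.KS.PR
import Pool.Agent.H17.KS.PT
import Pool.Agent.H89.KS.PV
import Pool.Agent.H17.KS.RA
import Pool.Agent.H69.KS.RB
import Pool.Agent.H84.KS.RL
import Pool.Agent.H31.KS.RLp
import Pool.Agent.H90.KS.RT
import Pool.Agent.H35.KS.RU
import Pool.Agent.H84.KS.SB
import Pool.Agent.H84.KS.SG
import Pool.Agent.H15.KS.SH
import Pool.Agent.H66.KS.SP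
import Pool.Agent.H34.KS.UK
import Pool.Agent.H14.KS.UM
import Pool.Agent.H54.KS.W1
import Pool.Agent.H66.KS.W2
import Pool.Agent.H69.KS.WK
import Pool.Agent.H48.KS.WS
import Pool.Agent.H33.KS.Z0
import Pool.Agent.H59.KS.Z1
import Pool.Agent.H33.KS.ZA
import Pool.Agent.H81.KS.ZB

/-!
# MP_ff41bc_an: assembly
-/

open scoped BigOperators ENNReal NNReal

noncomputable section

namespace Pool.Agent.H98.KS

theorem a_AB : T_AB := Pool.Agent.H13.KS.ks_AB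
theorem a_GE : T_GE := Pool.Agent.H54.KS.GE.ks_GE
theorem a_PR : T_PR := Pool.Agent.H71.KS.ks_PR
theorem a_AS : T_AS := Pool.Agent.H54.KS.AS.ks_AS a_PR
theorem a_BLK : T_BLK := Pool.Agent.H31.KS.ks_BLK
theorem a_I2 : T_I2 := Pool.Agent.H71.KS.ks_I2
theorem a_AP : T_AP := Pool.Agent.H67.KS.ks_AP (fun k q a b hq => (a_GE k q a b hq).1) a_AS a_BLK a_I2
theorem a_ARC : T_ARC := Pool.Agent.H1.KS.ks_ARC
theorem a_AX : T_AX := Pool.Agent.H36.KS.ks_AX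
theorem a_CI : T_CI := Pool.Agent.H34.KS.ks_CI
theorem a_LW : T_LW := Pool.Agent.H36.KS.ks_LW
theorem a_CV : T_CV := Pool.Agent.H4.KS.ks_CV a_ARC a_CI a_LW
theorem a_SH : T_SH := Pool.Agent.H15.KS.ks_SH
theorem a_MIN : T_MIN := Pool.Agent.H3.KS.ks_MIN a_SH
theorem a_PV : T_PV := Pool.Agent.H98.KS.ks_PV
theorem a_PK : T_PK := Pool.Agent.H15.KS.ks_PK a_PV
theorem a_SP : T_SP := Pool.Agent.H66.KS.SP.ks_SP
theorem a_KC : T_KC := Pool.Agent.H3.KS.ks_KC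
theorem a_W1 : T_W1 := Pool.Agent.H54.KS.W1.ks_W1
theorem a_RL : T_RL := Pool.Agent.H84.KS.ks_RL
theorem a_WS : T_WS := Pool.Agent.H48.KS.ks_WS a_RL
theorem a_WK : T_WK := Pool.Agent.H69.KS.ks_WK a_W1 a_WS
theorem a_MP : T_MP := Pool.Agent.H81.KS.ks_MP a_MIN a_PK a_SP a_KC a_WK
theorem a_I1 : T_I1 := Pool.Agent.H15.KS.ks_I1
theorem a_FJ : T_FJ := Pool.Agent.H14.KS.ks_FJ
theorem a_UK : T_UK := Pool.Agent.H34.KS.ks_UK
theorem a_HL : T_HL := Pool.Agent.H65.KS.ks_HL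
theorem a_HLQ : T_HLQ := Pool.Agent.H65.KS.ks_HLQ a_HL
theorem a_UM : T_UM := Pool.Agent.H14.KS.ks_UM a_HLQ a_PK a_SP
theorem a_SB : T_SB := Pool.Agent.H84.KS.SB.ks_SB a_SH a_AP a_I1 a_I2
theorem a_D1 : T_D1 := Pool.Agent.H31.KS.ks_D1 a_SB a_AX a_I1
theorem a_D2 : T_D2 := Pool.Agent.H36.KS.ks_D2
theorem a_DM : T_DM := Pool.Agent.H67.KS.ks_DM a_D1 a_D2
theorem a_ME : T_ME := Pool.Agent.H84.KS.ME.ks_ME a_I1 a_PK a_SP a_KC a_FJ a_UK a_UM a_DM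
theorem a_INT : T_INT := Pool.Agent.H67.KS.ks_INT
theorem a_G0 : T_G0 := Pool.Agent.H74.KS.ks_G0
theorem a_G2 : T_G2 := Pool.Agent.H54.KS.G2.ks_G2
theorem a_G3 : T_G3 := Pool.Agent.H90.KS.ks_G3 a_G2 a_GE
theorem a_RU : T_RU := Pool.Agent.H35.KS.ks_RU
theorem a_G4 : T_G4 := Pool.Agent.H1.KS.ks_G4 a_G2 a_GE a_RU
theorem a_GS : T_GS := Pool.Agent.H67.KS.ks_GS
theorem a_G5 : T_G5 := Pool.Agent.H54.KS.G5.ks_G5 a_G2 a_GE a_GS
theorem a_G1z : T_G1z := Pool.Agent.H59.KS.ks_G1z a_GE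
theorem a_M4 : T_M4 := Pool.Agent.H55.KS.ks_M4
theorem a_OB : T_OB := Pool.Agent.H54.KS.OB.ks_OB
theorem a_G1a : T_G1a := Pool.Agent.H74.KS.ks_G1a a_GE a_M4 a_OB
theorem a_M2 : T_M2 := Pool.Agent.H54.KS.M2.ks_M2
theorem a_M44 : T_M44 := Pool.Agent.H60.KS.ks_M44
theorem a_G1b : T_G1b := Pool.Agent.H60.KS.ks_G1b a_GE a_M2 a_M44
theorem a_CU : T_CU := Pool.Agent.H55.KS.ks_CU
theorem a_G1c : T_G1c := Pool.Agent.H67.KS.ks_G1c a_GE a_CU a_M4 a_OB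
theorem a_G6 : T_G6 := Pool.Agent.H35.KS.ks_G6 a_GE a_G3 a_G4 a_G5 a_G1z a_G1a a_G1b a_G1c
theorem a_G7 : T_G7 := Pool.Agent.H74.KS.ks_G7 a_GE a_G3 a_G4
theorem a_GB : T_GB := Pool.Agent.H89.KS.ks_GB a_GE a_G0 a_G6 a_G7
theorem a_HP : T_HP := Pool.Agent.H4.KS.ks_HP a_ME a_INT a_GB
theorem a_CC : T_CC := Pool.Agent.H98.KS.ks_CC a_CV a_MP a_HP
theorem a_LOC : T_LOC := Pool.Agent.H67.KS.ks_LOC
theorem a_EQ2 : T_EQ2 := Pool.Agent.H91.KS.ks_EQ2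
theorem a_LA : T_LA := Pool.Agent.H17.KS.ks_LA a_EQ2
theorem a_RA : T_RA := Pool.Agent.H17.KS.ks_RA a_LOC a_LA
theorem a_OR : T_OR := Pool.Agent.H31.KS.ks_OR
theorem a_SG : T_SG := Pool.Agent.H84.KS.SG.ks_SG
theorem a_RLp : T_RLp := Pool.Agent.H31.KS.ks_RLp
theorem a_PT : T_PT := Pool.Agent.H17.KS.ks_PT a_RLp
theorem a_MS : T_MS := Pool.Agent.H48.KS.ks_MS
theorem a_CT : T_CT := Pool.Agent.H81.KS.ks_CT
theorem a_LB : T_LB := Pool.Agent.H97.KS.ks_LB a_OR a_SG a_PT a_MS a_CT a_AB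
theorem a_NB : T_NB := Pool.Agent.H91.KS.ks_NB
theorem a_W2 : T_W2 := Pool.Agent.H66.KS.ks_W2
theorem a_RB : T_RB := Pool.Agent.H69.KS.ks_RB a_LOC a_LB a_NB a_WK a_W2
theorem a_RT : T_RT := Pool.Agent.H90.KS.ks_RT
theorem a_MID : T_MID := Pool.Agent.H35.KS.ks_MID a_RA a_RB a_RT
theorem a_L1 : T_L1 := Pool.Agent.H14.KS.ks_L1
theorem a_L2 : T_L2 := Pool.Agent.H4.KS.ks_L2
theorem a_LM : T_LM := Pool.Agent.H81.KS.ks_LM
theorem a_L3 : T_L3 := Pool.Agent.H54.KS.L3.ks_L3 a_L1 a_L2 a_LM a_G6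
theorem a_L4 : T_L4 := Pool.Agent.H33.KS.ks_L4
theorem a_NI : T_NI := Pool.Agent.H33.KS.ks_NI
theorem a_L5 : T_L5 := Pool.Agent.H4.KS.ks_L5 a_NI a_MIN a_SB a_ARC a_GB a_WK
theorem a_NL : T_NL := Pool.Agent.H98.KS.ks_NL a_L3 a_L4 a_L5
theorem a_CORE : T_CORE := Pool.Agent.H98.KS.ks_CORE a_HL a_MID a_CC a_NL
theorem a_Z0 : T_Z0 := Pool.Agent.H33.KS.ks_Z0
theorem a_ZA : T_ZA := Pool.Agent.H33.KS.ks_ZA a_Z0
theorem a_ZB : T_ZB := Pool.Agent.H81.KS.ks_ZB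
theorem a_Z1 : T_Z1 := Pool.Agent.H59.KS.ks_Z1 a_ZA a_ZB

/-- the endpoint bound for all large dimensions -/
theorem endpoint : ∀ k : ℕ, 3 ≤ k → ∃ D : ℕ, ∀ d : ℕ, D ≤ d → k < d ∧ ∃ C : ℝ≥0, ∀ f : (Fin d → ℤ) → ℂ,
    weakNorm ((d : ℝ) / ((d : ℝ) - k)) (maxOp k d f) ≤ C * lorentzNorm ((d : ℝ) / ((d : ℝ) - k)) f := by
  intro k hk
  obtain ⟨D, hD⟩ := a_CORE k hk
  refine ⟨D, fun d hd => ?_⟩
  obtain ⟨hkd, C, hC⟩ := hD d hd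
  exact ⟨hkd, a_Z1 k d C hk hkd hC⟩

end Pool.Agent.H98.KS
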