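import Mathlib

/-!
# MP_ff41bc_an: the k-spherical maximal operator, definitions used by the proof
helper98
-/

open scoped BigOperators

noncomputable section

namespace Pool.Agent.H98.KS

/-- `e(x) = exp(2 pi i x)` -/
def ee (x : ℝ) : ℂ := Complex.exp (2 * Real.pi * x * Complex.I)

/-- distance to the nearest integer -/
def dn (x : ℝ) : ℝ := |x - round x|

/-- `|y|^k = sum |y_i|^k` -/
def pw (k : ℕ) {d : ℕ} (y : Fin d → ℤ) : ℕ := ∑ i, (y i).natAbs ^ k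

/-- the number of lattice points `y` with `|y|^k = l` -/
def NN (k d l : ℕ) : ℕ := Set.ncard {y : Fin d → ℤ | pw k y = l}

/-- number of points of `F` on the sphere with centre `x` and `|x - y|^k = l` -/
def cnt (k : ℕ) {d : ℕ} (F : Finset (Fin d → ℤ)) (x : Fin d → ℤ) (l : ℕ) : ℕ :=
  (F.filter (fun y => pw k (x - y) = l)).card

/-- the cell `[0,L)^d` -/
def cell (d L : ℕ) : Finset (Fin d → ℤ) := Fintype.piFinset (fun _ => Finset.Ico (0 : ℤ) L)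

/-- the box `[u,v]^d` -/
def bx (d : ℕ) (u v : ℤ) : Finset (Fin d → ℤ) := Fintype.piFinset (fun _ => Finset.Icc u v)

/-- Weyl's inequality with unspecified constant `A` -/
def Weyl (k A : ℕ) : Prop := 1 ≤ A ∧ ∀ (P : Polynomial ℝ) (a : ℤ) (n : ℕ) (L δ : ℝ),
  P.natDegree ≤ k → 1 ≤ L → (n : ℝ) ≤ L → 0 < δ → δ ≤ 1 →
  δ * L ≤ ‖∑ x ∈ Finset.range n, ee (P.eval ((a : ℝ) + x))‖ →
  ∃ q : ℕ, 1 ≤ q ∧ (q : ℝ) ≤ A * (1 / δ) ^ A ∧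
    dn (q * ((k.factorial : ℝ) * P.coeff k)) ≤ A * (1 / δ) ^ A / L ^ k

/-- the version for the coefficient of `x^(k-1)` -/
def Weyl2 (k A : ℕ) : Prop := 1 ≤ A ∧ ∀ (P : Polynomial ℝ) (a : ℤ) (n : ℕ) (L δ : ℝ),
  P.natDegree ≤ k → 1 ≤ L → (n : ℝ) ≤ L → -(3 * L) ≤ (a : ℝ) → (a : ℝ) + n ≤ 3 * L → 0 < δ → δ ≤ 1 →
  δ * L ≤ ‖∑ x ∈ Finset.range n, ee (P.eval ((a : ℝ) + x))‖ →
  ∃ q : ℕ, 1 ≤ q ∧ (q : ℝ) ≤ A * (1 / δ) ^ A ∧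
    dn (q * P.coeff (k - 1)) ≤ A * (1 / δ) ^ A / L ^ (k - 1)

/-- one coordinate sum of the count of equidistant centres; `u j` are the coordinates of the `n+1` points -/
def Sx (k L n : ℕ) (τ : Fin n → ℝ) (u : Fin (n + 1) → ℤ) : ℂ :=
  ∑ x ∈ Finset.Ico (0 : ℤ) L,
    ee (∑ j : Fin n, τ j * ((((x - u j.succ).natAbs ^ k : ℕ) : ℝ) - (((x - u 0).natAbs ^ k : ℕ) : ℝ)))

/-- the set of `τ` in `[0,1]` near a rational with small denominator -/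
def T1 (Qm : ℕ) (η : ℝ) : Set ℝ :=
  {τ | 0 ≤ τ ∧ τ ≤ 1 ∧ ∃ Q : ℕ, 1 ≤ Q ∧ Q ≤ Qm ∧ dn (Q * τ) ≤ η}

/-! ### circle method -/

/-- `sum_{|n| <= X} e(θ |n|^k - n ξ)` -/
def Ss (k X : ℕ) (θ ξ : ℝ) : ℂ :=
  ∑ n ∈ Finset.Icc (-(X : ℤ)) X, ee (θ * ((n.natAbs ^ k : ℕ) : ℝ) - n * ξ)

/-- `sum_{1 <= n <= X} e(θ n^k - n ξ)` -/
def Hs (k X : ℕ) (θ ξ : ℝ) : ℂ := ∑ n ∈ Finset.Icc 1 X, ee (θ * (n : ℝ) ^ k - n * ξ)

/-- normalised complete sums -/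
def GG (k : ℕ) (a b : ℤ) (q : ℕ) : ℂ :=
  (1 / (q : ℂ)) * ∑ r ∈ Finset.range q, ee (((a * (r : ℤ) ^ k + b * r : ℤ) : ℝ) / q)

/-- bound for the complete sums -/
def GB (k : ℕ) (C : ℝ) : Prop := 1 ≤ C ∧ ∀ (q : ℕ) (a b : ℤ), 1 ≤ q → IsCoprime a (q : ℤ) →
  ‖GG k a b q‖ ≤ C * (q : ℝ) ^ (-(1 / (k : ℝ)))

/-- the oscillatory integral -/
def II (k : ℕ) (κ u : ℝ) : ℂ := ∫ x in (0 : ℝ)..1, ee (κ * x ^ k - u * x)

/-- the point `a/q + κ X^(-k)` -/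
def th (k X : ℕ) (a : ℤ) (q : ℕ) (κ : ℝ) : ℝ := (a : ℝ) / q + κ / (X : ℝ) ^ k

/-- numerators of the major arcs in `[0,1]` -/
def res (q : ℕ) : Finset ℕ := (Finset.range (q + 1)).filter (fun a => Nat.Coprime a q)

/-- the largest denominator of a major arc -/
def Qx (X : ℕ) : ℕ := ⌊(X : ℝ) ^ ((1 : ℝ) / 20)⌋₊

/-- the minor arcs -/
def MinS (k X : ℕ) : Set ℝ := {θ | 0 ≤ θ ∧ θ ≤ 1 ∧ ∀ q : ℕ, 1 ≤ q → (q : ℝ) ≤ (X : ℝ) ^ ((1 : ℝ) / 20) →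
  ∀ a : ℤ, (X : ℝ) ^ ((1 : ℝ) / 20) / (X : ℝ) ^ k < |θ - a / q|}

/-- the multiplier of one-dimensional averages along `q Z` -/
def aX (q J : ℕ) (ξ : ℝ) : ℂ := (1 / (2 * (J : ℂ) + 1)) * ∑ j ∈ Finset.Icc (-(J : ℤ)) J, ee (-(q * j * ξ))

/-- a trigonometric polynomial of degree `< q` -/
def vs (q : ℕ) (c : ℤ → ℂ) (ξ : ℝ) : ℂ := ∑ n ∈ Finset.Icc (-(q : ℤ)) q, c n * ee (-(n * ξ))

/-- the one-dimensional kernel with multiplier `z * aX * vs` -/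
def uk (q J : ℕ) (z : ℂ) (c : ℤ → ℂ) (n : ℤ) : ℂ :=
  z * (1 / (2 * (J : ℂ) + 1)) * ∑ j ∈ Finset.Icc (-(J : ℤ)) J, c (n - q * j)

/-- the number of solutions modulo `W` -/
def LS (k d W l : ℕ) : ℕ :=
  ((Fintype.piFinset (fun _ : Fin d => Finset.range W)).filter (fun s => (∑ i, s i ^ k) ≡ l [MOD W])).card

/-- the average of `NN` over the progression `l + j W`, `|j| <= J` -/
def AvN (k d l W J : ℕ) : ℝ :=
  (1 / (2 * (J : ℝ) + 1)) * ∑ j ∈ Finset.range (2 * J + 1), (NN k d (l - J * W + j * W) : ℝ)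

/-- the value of the major arc multiplier at `b/q` -/
def gb (k : ℕ) (a b : ℤ) (q : ℕ) : ℂ := GG k a (-b) q + GG k a b q

/-- the kernel sum `sum_{y in F, |x-y| <= X} e(θ |x-y|^k)` -/
def KF (k : ℕ) {d : ℕ} (F : Finset (Fin d → ℤ)) (X : ℕ) (θ : ℝ) (x : Fin d → ℤ) : ℂ :=
  ∑ y ∈ F.filter (fun y => ∀ i, |x i - y i| ≤ X), ee (θ * (pw k (x - y) : ℝ))

/-- Fourier transform of a function supported in the finite set `S` -/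
def ft {d : ℕ} (S : Finset (Fin d → ℤ)) (f : (Fin d → ℤ) → ℂ) (ξ : Fin d → ℝ) : ℂ :=
  ∑ x ∈ S, f x * ee (-(∑ i, (x i : ℝ) * ξ i))

/-- convolution with a kernel supported in the finite set `S` -/
def conv {d : ℕ} (S : Finset (Fin d → ℤ)) (K f : (Fin d → ℤ) → ℂ) (x : Fin d → ℤ) : ℂ :=
  ∑ y ∈ S, K y * f (x - y)

/-- averages along `q Z^d` -/
def avq {d : ℕ} (q J : ℕ) (g : (Fin d → ℤ) → ℝ) (x : Fin d → ℤ) : ℝ :=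
  (1 / (2 * (J : ℝ) + 1) ^ d) * ∑ j ∈ bx d (-(J : ℤ)) J, g (fun i => x i - q * j i)

/-- the exponent of the oscillatory integral -/
def e0 (k : ℕ) : ℝ := 1 / (2 * ((k : ℝ) - 1))

/-- the size of the main estimate -/
def BB (k d : ℕ) (q : ℕ) (κ : ℝ) : ℝ :=
  (q : ℝ) ^ (-((d : ℝ) / k)) * (1 + |κ|) ^ (-(e0 k * ((d : ℝ) - 1))) * (Real.log (3 + |κ|)) ^ ((1 : ℝ) / 2)

/-- lower bound for the scales on which the major arc `(q, κ)` occurs: `X^(1/20) >= q, |κ|` -/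
def big (X q : ℕ) (κ : ℝ) : Prop := (q : ℝ) ≤ (X : ℝ) ^ ((1 : ℝ) / 20) ∧ |κ| ≤ (X : ℝ) ^ ((1 : ℝ) / 20)

/-- exponent of the low arcs: between `1/(2k)` and `e0 k` -/
def e1 (k : ℕ) : ℝ := (1 / (2 * (k : ℝ)) + e0 k) / 2

/-- width of the low arcs -/
def kap (k : ℕ) (Y : ℝ) (q : ℕ) : ℝ := (Y / q) ^ (1 / ((k : ℝ) * e1 k))

/-- the pair `(q, κ)` is low -/
def low (k : ℕ) (Y : ℝ) (q : ℕ) (κ : ℝ) : Prop := (q : ℝ) ≤ Y ∧ |κ| ≤ kap k Y q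

end Pool.Agent.H98.KS
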