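import Pool.Agent.H98.KS.Defs

/-!
# MP_ff41bc_an, targets 2: complete exponential sums `GG k a b q`
paper proof: team-store `H98_KS_proof.md` (section 6)
helper98
-/

open scoped BigOperators

noncomputable section

namespace Pool.Agent.H98.KS

/-- weighted complete sums modulo `p` -/
def SW (k p : ℕ) (w : ℕ → ℂ) (a b : ℤ) : ℂ :=
  ∑ x ∈ Finset.range p, w x * ee (((a * (x : ℤ) ^ k + b * x : ℤ) : ℝ) / p)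

/-- elementary properties of `GG` -/
def T_GE : Prop := ∀ (k q : ℕ) (a b : ℤ), 1 ≤ q →
  ‖GG k a b q‖ ≤ 1 ∧
  (∀ u v : ℤ, GG k (a + q * u) (b + q * v) q = GG k a b q) ∧
  (∀ u : ℤ, IsCoprime u (q : ℤ) → GG k (a * u ^ k) (b * u) q = GG k a b q) ∧
  ‖GG k (-a) (-b) q‖ = ‖GG k a b q‖

/-- multiplicativity -/
def T_G0 : Prop := ∀ (k q1 q2 : ℕ) (a b : ℤ), 1 ≤ k → 1 ≤ q1 → 1 ≤ q2 → Nat.Coprime q1 q2 →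
  GG k a b (q1 * q2) = GG k (a * (q2 : ℤ) ^ (k - 1)) b q1 * GG k (a * (q1 : ℤ) ^ (k - 1)) b q2

open Classical in
/-- restriction to the points where the derivative is divisible by `n` -/
def T_G2 : Prop := ∀ (k m n : ℕ) (a b : ℤ), 1 ≤ m → 1 ≤ n → n ∣ m →
  ∑ r ∈ Finset.range (m * n), ee (((a * (r : ℤ) ^ k + b * r : ℤ) : ℝ) / (m * n)) =
  ∑ r ∈ (Finset.range (m * n)).filter (fun r => (n : ℤ) ∣ k * a * (r : ℤ) ^ (k - 1) + b),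
    ee (((a * (r : ℤ) ^ k + b * r : ℤ) : ℝ) / (m * n))

/-- recursion for prime powers -/
def T_G3 : Prop := ∀ (k p j v : ℕ) (a b : ℤ), p.Prime → 2 ≤ k → p ^ v ∣ k → ¬ p ^ (v + 1) ∣ k →
  2 * v + 2 ≤ j → ¬ (p : ℤ) ∣ a → ((p : ℤ) ^ (v + 1)) ∣ b →
  (j ≤ k → ‖GG k a b (p ^ j)‖ ≤ 1 / p) ∧
  (k < j → ∃ b' : ℤ, ‖GG k a b (p ^ j)‖ ≤ 1 / p * ‖GG k a b' (p ^ (j - k))‖)

open Classical in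
/-- number of `n`-th roots modulo a prime power -/
def T_RU : Prop := ∀ (p m n : ℕ) (c : ℤ), p.Prime → 1 ≤ m → 1 ≤ n → ¬ (p : ℤ) ∣ c →
  ((Finset.range (p ^ m)).filter (fun x => ((p : ℤ) ^ m) ∣ (x : ℤ) ^ n - c)).card ≤ n ^ 2

/-- the unit case for prime powers -/
def T_G4 : Prop := ∀ (k p j v : ℕ) (a b : ℤ), p.Prime → 2 ≤ k → p ^ v ∣ k → ¬ p ^ (v + 1) ∣ k →
  2 * v + 2 ≤ j → ¬ (p : ℤ) ∣ a → ¬ ((p : ℤ) ^ (v + 1)) ∣ b →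
  ‖GG k a b (p ^ j)‖ ≤ (k : ℝ) ^ 2 * (p : ℝ) ^ v / (p : ℝ) ^ (j / 2)

/-- quadratic Gauss sums -/
def T_GS : Prop := ∀ (p : ℕ) (a b : ℤ), p.Prime → p ≠ 2 → ¬ (p : ℤ) ∣ a →
  ‖∑ t ∈ Finset.range p, ee (((a * (t : ℤ) ^ 2 + b * t : ℤ) : ℝ) / p)‖ = Real.sqrt p

/-- cubes modulo `p^3` -/
def T_G5 : Prop := ∀ (p : ℕ) (a b : ℤ), p.Prime → 5 ≤ p → ¬ (p : ℤ) ∣ a → ¬ (p : ℤ) ∣ b →
  ‖GG 3 a b (p ^ 3)‖ ≤ 1 / p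

/-- second moment over `b` -/
def T_M2 : Prop := ∀ (k p : ℕ) (w : ℕ → ℂ) (a : ℤ), 1 ≤ p →
  ∑ b ∈ Finset.range p, ‖SW k p w a b‖ ^ 2 = p * ∑ x ∈ Finset.range p, ‖w x‖ ^ 2

/-- fourth moment -/
def T_M4 : Prop := ∀ (k p : ℕ) (w : ℕ → ℂ), 2 ≤ k → p.Prime → k < p → (∀ x, ‖w x‖ ≤ 1) →
  ∑ a ∈ Finset.range p, ∑ b ∈ Finset.range p, ‖SW k p w a b‖ ^ 4 ≤ ((k : ℝ) + 1) * (p : ℝ) ^ 4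

/-- fourth moment for `k = 4` with the correct constant -/
def T_M44 : Prop := ∀ p : ℕ, p.Prime → 5 ≤ p →
  ∑ a ∈ Finset.range p, ∑ b ∈ Finset.range p, ‖SW 4 p (fun _ => 1) a b‖ ^ 4 ≤ 3 * (p : ℝ) ^ 4 + (p : ℝ) ^ 3

/-- orbits of the action `(a, b) ↦ (a u^k, b u)` -/
def T_OB : Prop := ∀ (k p : ℕ) (f : ℤ → ℤ → ℝ) (a b : ℤ), p.Prime → (∀ a b, 0 ≤ f a b) →
  (∀ a b u v : ℤ, f (a + p * u) (b + p * v) = f a b) →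
  (∀ u : ℤ, ¬ (p : ℤ) ∣ u → f (a * u ^ k) (b * u) = f a b) → ¬ (p : ℤ) ∣ b →
  ((p : ℝ) - 1) * f a b ≤ ∑ a' ∈ Finset.range p, ∑ b' ∈ Finset.range p, f a' b'

/-- `b = 0` modulo `p` -/
def T_G1z : Prop := ∀ (k p : ℕ) (a b : ℤ), 1 ≤ k → p.Prime → ¬ (p : ℤ) ∣ a → (p : ℤ) ∣ b →
  ‖GG k a b p‖ ≤ 2 * k / Real.sqrt p

/-- prime modulus, `k >= 5` -/
def T_G1a : Prop := ∀ k : ℕ, 5 ≤ k → ∃ p0 : ℕ, ∀ (p : ℕ) (a b : ℤ), p.Prime → p0 ≤ p →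
  ¬ (p : ℤ) ∣ a → ¬ (p : ℤ) ∣ b → ‖GG k a b p‖ ≤ (p : ℝ) ^ (-(1 / (k : ℝ)))

/-- prime modulus, `k = 4` -/
def T_G1b : Prop := ∃ p0 : ℕ, ∀ (p : ℕ) (a b : ℤ), p.Prime → p0 ≤ p →
  ¬ (p : ℤ) ∣ a → ¬ (p : ℤ) ∣ b → ‖GG 4 a b p‖ ≤ (p : ℝ) ^ (-(1 / (4 : ℝ)))

/-- the square of the cubic sum -/
def T_CU : Prop := ∀ (p : ℕ) (a b : ℤ), p.Prime → 5 ≤ p → ¬ (p : ℤ) ∣ a →
  ∃ w : ℕ → ℂ, (∀ x, ‖w x‖ ≤ 1) ∧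
    (∀ (a b u : ℤ), ¬ (p : ℤ) ∣ u → ‖SW 3 p w (a * u ^ 3) (b * u)‖ = ‖SW 3 p w a b‖) ∧
    ‖SW 3 p (fun _ => 1) a b‖ ^ 2 ≤ p + Real.sqrt p * ‖SW 3 p w (2 * a) (2 * b)‖

/-- prime modulus, `k = 3` -/
def T_G1c : Prop := ∃ p0 : ℕ, ∀ (p : ℕ) (a b : ℤ), p.Prime → p0 ≤ p →
  ¬ (p : ℤ) ∣ a → ¬ (p : ℤ) ∣ b → ‖GG 3 a b p‖ ≤ (p : ℝ) ^ (-(1 / (3 : ℝ)))

/-- all powers of large primes -/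
def T_G6 : Prop := ∀ k : ℕ, 3 ≤ k → ∃ p0 : ℕ, ∀ (p j : ℕ) (a b : ℤ), p.Prime → p0 ≤ p →
  ¬ (p : ℤ) ∣ a → ‖GG k a b (p ^ j)‖ ≤ ((p : ℝ) ^ j) ^ (-(1 / (k : ℝ)))

/-- all powers of one prime -/
def T_G7 : Prop := ∀ k p : ℕ, 3 ≤ k → p.Prime → ∃ C : ℝ, 1 ≤ C ∧ ∀ (j : ℕ) (a b : ℤ),
  ¬ (p : ℤ) ∣ a → ‖GG k a b (p ^ j)‖ ≤ C * ((p : ℝ) ^ j) ^ (-(1 / (k : ℝ)))

/-- the bound for complete sums -/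
def T_GB : Prop := ∀ k : ℕ, 3 ≤ k → ∃ C : ℝ, GB k C

end Pool.Agent.H98.KS
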